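import Pool.Agent.Run7.h144.TD.Tur

/-!
Let `R` be an analytic equivalence relation on the plays, and let `κ₀`, `κ₁` be continuous maps
(the codes of the two players) such that the class of a play in which player II plays a code
`κ₁ t` contains plays with at most one code `κ₀ u` of player I, and vice versa. Then every payoff
set `A` has an `R`-invariant coded form with the same winners as `A`. Thus the axiom of determinacy
is equivalent to the determinacy of all `R`-invariant payoff sets.

This applies to the payoff sets which depend only on the `E`-class of the sequence of the moves of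
player I and on the `F`-class of the sequence of the moves of player II, and to the payoff sets
which depend only on the unordered pair of the `E`-classes of these two sequences, for all analytic
equivalence relations `E` and `F` with a perfect set of pairwise inequivalent elements; for
instance to Turing equivalence, to the isomorphism relation of countable graphs, and to the
equality of all but finitely many terms.

Outline of the proof. A player with a winning strategy for `A` plays its code, and wins. Conversely
let `s` be a winning strategy of a player in the coded game. Against the code of a strategy `t` of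
the opponent, the play given by `s` yields a unique `F t`, a strategy which wins against `t` in the
game with payoff set `A`. The function `F` has an analytic graph, so it is Borel. Consider the
auxiliary game in which the player, besides the moves of a run of the original game, plays the bits
of an element `t`, and wins if the run is the run of `F t` against `t`. The opponent has no winning
strategy in it: from such a strategy `τ` one gets, by recursion, a strategy `t` of the original game
which answers as `τ` does to a player who plays the bits of this very `t`, and then `τ` loses the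
run of `F t` against `t`. By Borel determinacy the player wins the auxiliary game, hence the game
with payoff set `A`.
-/

set_option autoImplicit false

namespace Pool.Agent.Results.MP_917879_lc.AnalyticClasses

open MeasureTheory
open Run7.h144.TD Pool.Agent.H685R3 Pool.Agent.Y588.PD

/-- The coded form of every payoff set `A` is closed under `R`, and each of the two players has a
winning strategy in the game with this payoff set if and only if the same player has one in the game
with payoff set `A`. -/
def SameWinners (R : (ℕ → Bool) → (ℕ → Bool) → Prop) (κ₀ κ₁ : (ℕ → Bool) → ℕ → Bool) : Prop :=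
  ∀ A : Set (ℕ → Bool), (∀ x y, R x y → x ∈ Coded R κ₀ κ₁ A → y ∈ Coded R κ₀ κ₁ A) ∧
    (WinsI (Coded R κ₀ κ₁ A) ↔ WinsI A) ∧ (WinsII (Coded R κ₀ κ₁ A) ↔ WinsII A)

/-- (1) For every analytic equivalence relation `R` on the plays and all continuous `κ₀`, `κ₁` which
are separated for `R`, the coded form of every payoff set `A` is invariant and has the same winners
as `A`. (2) This holds for the relation that the sequences of the moves of player I are
`E`-equivalent and those of the moves of player II are `F`-equivalent, where `E` and `F` are analytic
equivalence relations and `κ`, `κ'` are continuous with pairwise `E`-inequivalent, respectively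
`F`-inequivalent, values. (3) It holds for the relation that the unordered pairs of the `E`-classes
of the sequences of the moves of the two players are the same. (4) In particular it holds for the
unordered pairs of Turing degrees. -/
theorem result :
    (∀ (R : (ℕ → Bool) → (ℕ → Bool) → Prop) (κ₀ κ₁ : (ℕ → Bool) → ℕ → Bool), Equivalence R →
      AnalyticSet {p : (ℕ → Bool) × (ℕ → Bool) | R p.1 p.2} → Continuous κ₀ → Continuous κ₁ →
      Separated R κ₀ κ₁ → SameWinners R κ₀ κ₁) ∧
    (∀ (E F : (ℕ → Bool) → (ℕ → Bool) → Prop) (κ κ' : (ℕ → Bool) → ℕ → Bool),
      Equivalence E → Equivalence F → AnalyticSet {p : (ℕ → Bool) × (ℕ → Bool) | E p.1 p.2} →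
      AnalyticSet {p : (ℕ → Bool) × (ℕ → Bool) | F p.1 p.2} → Continuous κ → Continuous κ' →
      (∀ u v, E (κ u) (κ v) → u = v) → (∀ u v, F (κ' u) (κ' v) → u = v) →
      SameWinners (SamePair E F) κ κ') ∧
    (∀ (E : (ℕ → Bool) → (ℕ → Bool) → Prop) (κ : (ℕ → Bool) → ℕ → Bool), Equivalence E →
      AnalyticSet {p : (ℕ → Bool) × (ℕ → Bool) | E p.1 p.2} → Continuous κ →
      (∀ u v, E (κ u) (κ v) → u = v) →
      SameWinners (SameUnordered E) (fun u => κ (cons false u)) (fun u => κ (cons true u))) ∧
    ∃ κ : (ℕ → Bool) → ℕ → Bool, Continuous κ ∧ (∀ u v, SameDegree (κ u) (κ v) → u = v) ∧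
      SameWinners (SameUnordered SameDegree) (fun u => κ (cons false u))
        (fun u => κ (cons true u)) := by
  have h1 : ∀ (R : (ℕ → Bool) → (ℕ → Bool) → Prop) (κ₀ κ₁ : (ℕ → Bool) → ℕ → Bool),
      Equivalence R → AnalyticSet {p : (ℕ → Bool) × (ℕ → Bool) | R p.1 p.2} → Continuous κ₀ →
      Continuous κ₁ → Separated R κ₀ κ₁ → SameWinners R κ₀ κ₁ := by
    intro R κ₀ κ₁ hR aR c₀ c₁ h A
    obtain ⟨h2, h3⟩ := main hR aR c₀ c₁ h A
    exact ⟨fun x y hxy => (h2 x y hxy).1, h3⟩
  have h2 : ∀ (E : (ℕ → Bool) → (ℕ → Bool) → Prop) (κ : (ℕ → Bool) → ℕ → Bool), Equivalence E →
      AnalyticSet {p : (ℕ → Bool) × (ℕ → Bool) | E p.1 p.2} → Continuous κ →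
      (∀ u v, E (κ u) (κ v) → u = v) →
      SameWinners (SameUnordered E) (fun u => κ (cons false u)) (fun u => κ (cons true u)) :=
    fun E κ hE aE c h => h1 _ _ _ (equivalence_unordered hE) (analytic_unordered aE)
      (c.comp (continuous_cons false)) (c.comp (continuous_cons true)) (separated_unordered hE h)
  refine ⟨h1, fun E F κ κ' hE hF aE aF c c' h h' => h1 _ _ _ (equivalence_pair hE hF)
    (analytic_pair aE aF) c c' (separated_pair hE hF h h'), h2, ?_⟩
  obtain ⟨κ, c, h⟩ := exists_turing
  exact ⟨κ, c, h, h2 _ κ Pool.Agent.Y588.PC.equivalence_sameDegree analytic_turing c h⟩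

end Pool.Agent.Results.MP_917879_lc.AnalyticClasses
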