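import Pool.Agent.Run7.h144.TD.Free

/-!
Let `Γ` be a countable group of permutations of the positions `0, 1, 2, ...` of the moves. If `Γ`
contains no free subsemigroup of rank two (for instance if `Γ` is a torsion group, or locally
nilpotent, or a group of subexponential growth), or if, more generally, the set of the positions of
each player is tame for `Γ`, then every payoff set `A` has a coded form with the same winners as `A`
which is invariant under `Γ`, and under finite changes. So for such a group `Γ` the axiom of
determinacy is equivalent to the determinacy of all `Γ`-invariant payoff sets.

For Thompson's circle group, which acts on the positions by two explicit permutations, the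
determinacy of all `Γ`-invariant payoff sets is equivalent to Turing determinacy (see
`ThompsonCircle`).

Outline of the proof. The code of a strategy `u` of player I has the bit number `μ n` of
`0, u 0, u 1, ...` at the position `n`, and the code of a strategy `z` of player II has the bit
number `μ n` of `1, z 0, z 1, ...` there. The function `μ` is chosen such that for each `δ` in `Γ`
and each `m` there are infinitely many `n` with `μ n = μ (δ n) = m` in each of the following sets,
if it is infinite: the positions `n` of player I in `P₀` such that `δ n` is a position of player II,
the `n ∈ P₀` with `δ n ∈ P₀`, and the same for player II and `P₁`. If player II plays the code of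
`t`, and `γ` maps the code of `u` on `P₀` into the play, then `γ` maps almost all of `P₀` to
positions of player I, as the two codes disagree on all pairs of positions with `μ n = μ (γ n) = 0`.
If the same holds for `γ'` and `u'`, then `γ '' P₀` and `γ' '' P₀` have infinite intersection by
tameness, and so `u = u'`. Hence the strategy coded by player I can be recovered from every play in
which player II plays a code, and conversely, and the theorem follows as in `AnalyticClasses`, by a
fixed point construction and Borel determinacy.
-/

set_option autoImplicit false

namespace Pool.Agent.Results.MP_917879_lc.GroupInvariant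

open Filter
open Run7.h144.TD Pool.Agent.H685R3

/-- For some function `μ` the coded form of every payoff set `A` is invariant under the elements of
`Γ` and under finite changes, and each of the two players has a winning strategy in the game with
this payoff set if and only if the same player has one in the game with payoff set `A`. -/
def SameWinners (Γ : Subgroup (Equiv.Perm ℕ)) (P₀ P₁ : Set ℕ) : Prop :=
  ∃ μ : ℕ → ℕ, ∀ A : Set (ℕ → Bool),
    (∀ γ ∈ Γ, ∀ x y : ℕ → Bool, (∀ᶠ n in cofinite, y n = x (γ n)) →
      (x ∈ GroupCoded Γ P₀ P₁ μ A ↔ y ∈ GroupCoded Γ P₀ P₁ μ A)) ∧
    (WinsI (GroupCoded Γ P₀ P₁ μ A) ↔ WinsI A) ∧ (WinsII (GroupCoded Γ P₀ P₁ μ A) ↔ WinsII A)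

/-- Let `Γ` be a countable group of permutations of the natural numbers. (1) If `P₀` is tame with
respect to the set of the even numbers (the positions of the moves of player I) and `P₁` is tame
with respect to the set of the odd numbers, then `SameWinners` holds. (2) If no two elements of `Γ`
generate a free semigroup freely, that is, if for any two elements of `Γ` there are two different
words with the same value, then `SameWinners` holds with the sets of all even and of all odd
numbers. -/
theorem result (Γ : Subgroup (Equiv.Perm ℕ)) (hΓ : Countable Γ) :
    (∀ P₀ P₁ : Set ℕ, Tame Γ P₀ {n | n % 2 = 0} → Tame Γ P₁ {n | n % 2 = 1} →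
      SameWinners Γ P₀ P₁) ∧
    ((∀ f : Bool → Equiv.Perm ℕ, (∀ b, f b ∈ Γ) →
        ∃ v w : List Bool, v ≠ w ∧ (v.map f).prod = (w.map f).prod) →
      SameWinners Γ {n | n % 2 = 0} {n | n % 2 = 1}) := by
  have hi : ∀ β < 2, {n : ℕ | n % 2 = β}.Infinite := fun β hβ =>
    Set.infinite_of_injective_forall_mem (f := fun k : ℕ => 2 * k + β)
      (fun a b h => by simp only at h; omega) fun k => by
        simp only [Set.mem_setOf_eq]
        omega
  exact ⟨fun P₀ P₁ h₀ h₁ => group_main h₀ h₁, fun h => group_main (tame_of_words h (hi 0 (by omega)))
    (tame_of_words h (hi 1 (by omega)))⟩

end Pool.Agent.Results.MP_917879_lc.GroupInvariant
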