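import Pool.Agent.Helper144.TD.Indep

set_option autoImplicit false

/-!
Turing determinacy implies that there are no maximal independent families, neither in the power set
of the natural numbers nor modulo any filter finer than the Fréchet filter; more generally every
family of sets which has no perfect antichain modulo the filter is split by a fixed sequence of
disjoint finite sets. Stated as an explicit reduction: to a filter and a family of sets of natural
numbers we attach one Turing invariant set of reals, and if it is determined, the conclusion holds.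
-/

namespace Pool.Agent.Results.MP_917879_lc.IndependentFamilies

open Pool.Agent.H685R3 Filter

/-- `x` and `y` have the same Turing degree (Mathlib's Turing reducibility, for characteristic
functions). -/
def SameDegree (x y : ℕ → Bool) : Prop :=
  TuringReducible (charFn x) (charFn y) ∧ TuringReducible (charFn y) (charFn x)

/-- The set of all `x` such that for some `x'` of the same Turing degree the set `V` contains
infinitely many members of the sequence `Φ x'`. -/
def Saturation (V : Set (ℕ → Bool)) (Φ : (ℕ → Bool) → ℕ → ℕ → Bool) : Set (ℕ → Bool) :=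
  {x | ∃ x', SameDegree x' x ∧ ∃ᶠ n in atTop, Φ x' n ∈ V}

/-- The (characteristic functions of) sets of natural numbers which contain a member of `𝔹` modulo
the filter `F`. -/
def Above (F : Filter ℕ) (𝔹 : Set (Set ℕ)) : Set (ℕ → Bool) :=
  {x | ∃ B ∈ 𝔹, ∀ᶠ n in F, n ∈ B → x n = true}

/-- The sets `I k` are finite and pairwise disjoint. -/
def Blocks (I : ℕ → Set ℕ) : Prop := (∀ k, (I k).Finite) ∧ ∀ i j, i ≠ j → Disjoint (I i) (I j)

/-- Every member of `𝔹` meets the union of infinitely many of the `I k` in an `F`-positive set. -/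
def Splits (F : Filter ℕ) (I : ℕ → Set ℕ) (𝔹 : Set (Set ℕ)) : Prop :=
  ∀ c : Set ℕ, c.Infinite → ∀ B ∈ 𝔹, ∃ᶠ n in F, n ∈ B ∩ ⋃ k ∈ c, I k

/-- The union of any infinitely many of the `I k` contains a member of `𝔹` modulo `F`. -/
def Engulfs (F : Filter ℕ) (I : ℕ → Set ℕ) (𝔹 : Set (Set ℕ)) : Prop :=
  ∀ c : Set ℕ, c.Infinite → ∃ B ∈ 𝔹, ∀ᶠ n in F, n ∈ B → n ∈ ⋃ k ∈ c, I k

/-- There is a family of members of `𝔹`, indexed by the reals, whose pairwise intersections are
`F`-null (for the Fréchet filter: finite). -/
def PerfectAntichain (F : Filter ℕ) (𝔹 : Set (Set ℕ)) : Prop :=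
  ∃ b : (ℕ → Bool) → Set ℕ, (∀ t, b t ∈ 𝔹) ∧ ∀ t u, t ≠ u → ∀ᶠ n in F, n ∉ b t ∩ b u

/-- A set of functions from the natural numbers to `K` is independent modulo the filter `F` if
every finite system of equations `f n = v f` (one for each `f` in a finite subset `s`) is solved by
`F`-positively many `n` (for the Fréchet filter: by infinitely many `n`). For `K = Bool` these are
the independent families of sets of natural numbers. -/
def Independent {K : Type*} (F : Filter ℕ) (𝓕 : Set (ℕ → K)) : Prop :=
  ∀ (s : Finset (ℕ → K)) (v : (ℕ → K) → K), (s : Set (ℕ → K)) ⊆ 𝓕 →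
    ∃ᶠ n in F, ∀ f ∈ s, f n = v f

/-- The solution sets of the finite systems of equations `f n = v f` with `f` in `𝓕`. -/
def Cells {K : Type*} (𝓕 : Set (ℕ → K)) : Set (Set ℕ) :=
  {B | ∃ (s : Finset (ℕ → K)) (v : (ℕ → K) → K), (s : Set (ℕ → K)) ⊆ 𝓕 ∧
    B = {n | ∀ f ∈ s, f n = v f}}

/-- There is a Borel map `Φ` from the Cantor space to the sequences of its points such that, for
every filter `F` on the natural numbers finer than the Fréchet filter and every family `𝔹` of sets
of natural numbers, the Turing saturation of `{x | Φ x n ∈ Above F 𝔹 for infinitely many n}` is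
Turing invariant, and if it is determined, then `𝔹` is split by or engulfed in a sequence of
disjoint finite sets, and it is split if it has no perfect antichain. If `𝓕` is a maximal
independent family modulo `F` of functions to a countable set `K` with at least two elements, then
the Turing invariant set attached to `F` and the cells of `𝓕` is not determined. -/
theorem result :
    ∃ Φ : (ℕ → Bool) → ℕ → ℕ → Bool, Measurable Φ ∧ ∀ F : Filter ℕ, F ≤ cofinite →
      (∀ 𝔹 : Set (Set ℕ), TuringInvariant (Saturation (Above F 𝔹) Φ) ∧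
        (Determined (Saturation (Above F 𝔹) Φ) →
          ((∃ I, Blocks I ∧ Splits F I 𝔹) ∨ ∃ I, Blocks I ∧ Engulfs F I 𝔹) ∧
          (¬ PerfectAntichain F 𝔹 → ∃ I, Blocks I ∧ Splits F I 𝔹))) ∧
      ∀ (K : Type*) [Countable K] [Nontrivial K] (𝓕 : Set (ℕ → K)),
        Maximal (Independent F) 𝓕 → ¬ Determined (Saturation (Above F (Cells 𝓕)) Φ) := by
  refine ⟨Pool.Agent.W885.TD.cc [], Pool.Agent.W885.TD.measurable_cc [], fun F hF => ?_⟩
  have key : ∀ V : Set (ℕ → Bool), Saturation V (Pool.Agent.W885.TD.cc []) =
      Pool.Agent.W885.TD.sat V (Pool.Agent.W885.TD.cc []) := by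
    intro V
    ext x
    exact ⟨fun ⟨x', h, h'⟩ => ⟨x', h.1, h.2, h'⟩, fun ⟨x', h1, h2, h'⟩ => ⟨x', ⟨h1, h2⟩, h'⟩⟩
  refine ⟨fun 𝔹 => ⟨?_, fun h => ⟨?_, fun hc => ?_⟩⟩, fun K _ _ 𝓕 h𝓕 => ?_⟩
  · rw [key]
    exact Pool.Agent.W885.TD.sat_invariant _ _
  · rw [key] at h
    exact Pool.Agent.Helper144.Unsplit.dich_family hF h
  · rw [key] at h
    refine Pool.Agent.Helper144.Unsplit.split_of_no_antichain hF (fun b hb => ?_) h
    by_contra h1
    push Not at h1
    exact hc ⟨b, hb, fun t u htu => h1 t u htu⟩
  · rw [key]
    exact Pool.Agent.Helper144.Unsplit.not_determined_of_maximal hF h𝓕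

end Pool.Agent.Results.MP_917879_lc.IndependentFamilies
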