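import Pool.Agent.Run7.h144.UT.Dz
import Pool.Agent.Run7.h144.UT.Lin

/-!
# The use of the reductions decides between the axiom of determinacy and Turing determinacy

For payoff sets which are closed under Turing equivalence with use `n + o(n)` (that is, `y n` is
computed from the first `n + o(n)` bits of `x`, and conversely), for instance under computable
Lipschitz equivalence, determinacy is equivalent to the full axiom of determinacy. For payoff sets
which are closed under Turing equivalence with use `(1 + ε) n + O(1)`, for any fixed `ε > 0`, it is
equivalent to Turing determinacy. So Question 1 asks whether the determinacy of all the sets of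
the second kind implies that of all the sets of the first kind.

In the first case it is not important that the reductions are computable: the first `n` bits of `x`
and of `y` may be obtained from each other by an arbitrary map `U` with an advice of `o(n)` bits, and
arbitrary changes on sets of positions of density zero may be allowed, too. The general result is
about analytic equivalence relations of rate at most `1 / 5`: up to a countable decomposition, there
are at most `2 ^ (n / 5)` possibilities for the first `n` bits of `y` when those of `x` are given.

Outline of the proof. By a theorem of Mycielski there is a perfect set of sequences such that for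
no three different members `a`, `c`, `c'` there is a play in which one player plays `a` and which is
equivalent to plays in which the other one plays `c`, respectively `c'`: the first `n` bits of `a`,
`c` and `c'` are `3 n` free bits, but the first `2 n` bits of the three plays only allow for
`2 ^ (2 n + 4 n / 5)` possibilities. So if the members of this set are used as codes for strategies,
then a player cannot submit two codes while the other one plays a code, and the theorem on analytic
equivalence relations with separated codes (`AnalyticClasses` in this folder) gives coded forms with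
the same winners. In the second case the permutations of the positions which generate Thompson's
circle group are written as products of `q + 2` permutations with small displacement: one
subsequence of the play is slowed down and another one is speeded up in `q` steps. So the sets in
question are invariant under the circle group, and the starting result `ThompsonCircle` applies.
-/

set_option autoImplicit false

namespace Pool.Agent.Results.MP_917879_lc.UseThreshold

open MeasureTheory
open Run7.h144.TD Run7.h144.UT Pool.Agent.H685R3 Pool.Agent.Y588.TC

/-- The coded form of every payoff set `A` is closed under `S`, and each of the two players has a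
winning strategy in the game with this payoff set if and only if the same player has one in the game
with payoff set `A`. -/
def SameWinners (S R : (ℕ → Bool) → (ℕ → Bool) → Prop) (κ₀ κ₁ : (ℕ → Bool) → ℕ → Bool) : Prop :=
  ∀ A : Set (ℕ → Bool), ClosedUnder S (Coded R κ₀ κ₁ A) ∧
    (WinsI (Coded R κ₀ κ₁ A) ↔ WinsI A) ∧ (WinsII (Coded R κ₀ κ₁ A) ↔ WinsII A)

/-- (1) For every analytic equivalence relation `R` of rate at most `1 / 5` there are continuous
codes `κ₀`, `κ₁` such that the coded form of every payoff set `A` is `R`-invariant and has the same
winners as `A`. (2) The same holds for all symmetric analytic relations `S` of rate zero, with the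
equivalence relation generated by `S`. (3) For every map `U`, information distance zero for `U`
together with changes on sets of density zero is such a relation. (4) For a suitable `U` it
contains Turing equivalence with use `n + o(n)`; so there is an equivalence relation `R` such that
the coded form of every payoff set is closed under Turing equivalence with use `n + o(n)` and under
changes on sets of density zero, and has the same winners. (5) Let `q ≥ 1`. If `A` is closed under
Turing equivalence with use `(1 + 1 / q) n + O(1)`, then the set of all `u` with
`adaptiveJump (hyperJump u)` in `A` is closed under hyperarithmetical equivalence (so it is Turing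
invariant) and has the same winners as `A`; all Turing invariant sets are closed under Turing
equivalence with use `(1 + 1 / q) n + O(1)`, and this relation contains Turing equivalence with use
`n + o(n)`. -/
theorem result :
    (∀ R : (ℕ → Bool) → (ℕ → Bool) → Prop, Equivalence R →
      AnalyticSet {p : (ℕ → Bool) × (ℕ → Bool) | R p.1 p.2} → Rate 5 R →
      ∃ κ₀ κ₁ : (ℕ → Bool) → ℕ → Bool, Continuous κ₀ ∧ Continuous κ₁ ∧ SameWinners R R κ₀ κ₁) ∧
    (∀ S : (ℕ → Bool) → (ℕ → Bool) → Prop, (∀ x y, S x y → S y x) →
      AnalyticSet {p : (ℕ → Bool) × (ℕ → Bool) | S p.1 p.2} → RateZero S →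
      ∃ κ₀ κ₁ : (ℕ → Bool) → ℕ → Bool, Continuous κ₀ ∧ Continuous κ₁ ∧
        SameWinners S (Relation.ReflTransGen S) κ₀ κ₁) ∧
    (∀ U : List Bool → List Bool → List Bool, (∀ x y, Coarse U x y → Coarse U y x) ∧
      AnalyticSet {p : (ℕ → Bool) × (ℕ → Bool) | Coarse U p.1 p.2} ∧ RateZero (Coarse U)) ∧
    (∃ U : List Bool → List Bool → List Bool, (∀ x y, SlowUse x y → Near U x y) ∧
      ∃ κ₀ κ₁ : (ℕ → Bool) → ℕ → Bool, Continuous κ₀ ∧ Continuous κ₁ ∧
        SameWinners (fun x y => SlowUse x y ∨ DensityZero x y)
          (Relation.ReflTransGen (Coarse U)) κ₀ κ₁) ∧
    ∀ q : ℕ, 0 < q →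
      (∀ A : Set (ℕ → Bool), ClosedUnder (LinearUse q) A →
        HypInvariant {u | adaptiveJump (hyperJump u) ∈ A} ∧
        (WinsI {u | adaptiveJump (hyperJump u) ∈ A} ↔ WinsI A) ∧
        (WinsII {u | adaptiveJump (hyperJump u) ∈ A} ↔ WinsII A)) ∧
      (∀ A : Set (ℕ → Bool), HypInvariant A → TuringInvariant A) ∧
      (∀ A : Set (ℕ → Bool), TuringInvariant A → ClosedUnder (LinearUse q) A) ∧
      ∀ x y, SlowUse x y → LinearUse q x y := by
  have h2 : ∀ S : (ℕ → Bool) → (ℕ → Bool) → Prop, (∀ x y, S x y → S y x) →
      AnalyticSet {p : (ℕ → Bool) × (ℕ → Bool) | S p.1 p.2} → RateZero S →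
      ∃ κ₀ κ₁ : (ℕ → Bool) → ℕ → Bool, Continuous κ₀ ∧ Continuous κ₁ ∧
        SameWinners S (Relation.ReflTransGen S) κ₀ κ₁ := fun S hs a h => main_rate hs a h
  refine ⟨?_, h2, fun U => ⟨coarse_symm U, analytic_coarse U, rate_coarse U⟩, ?_, fun q hq => ?_⟩
  · intro R hR a h
    obtain ⟨κ₀, κ₁, c₀, c₁, hsep⟩ := exists_codes h
    refine ⟨κ₀, κ₁, c₀, c₁, fun A => ?_⟩
    obtain ⟨h3, h4⟩ := Run7.h144.TD.main hR a c₀ c₁ hsep A
    exact ⟨fun x y hxy => (h3 x y hxy).1, h4⟩
  · obtain ⟨κ₀, κ₁, c₀, c₁, h3⟩ := h2 _ (coarse_symm U₀) (analytic_coarse U₀) (rate_coarse U₀)
    refine ⟨U₀, fun x y h => near_of_slow h, κ₀, κ₁, c₀, c₁, fun A => ⟨?_, (h3 A).2⟩⟩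
    rintro x y (h | h)
    · exact (h3 A).1 x y (Or.inl (near_of_slow h))
    · exact (h3 A).1 x y (Or.inr h)
  · exact ⟨fun A hA => (Pool.Agent.Y588.TC.main (circle_of_linear hA hq)).2,
      fun A h => h.turingInvariant, fun A hA => closed_of_turing hA q,
      fun x y h => linear_of_slow h hq⟩

end Pool.Agent.Results.MP_917879_lc.UseThreshold
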